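import Pool.Agent.W912.EC.Defs
import Pool.Agent.H622R2.Ckt.CNT
import Pool.Agent.H622R2.Ckt.LOC
import Pool.Agent.H620R2.Gauge.S

/-!
# Counting the assignments for which some small circuit is right
-/

set_option autoImplicit false

namespace Pool.Agent.W812.EC

open Pool.Agent.NPC Pool.Agent.H620R2.Gauge Pool.Agent.H622R2.Exp Pool.Agent.H622R2.Ckt
open Pool.Agent.W900.CH Pool.Agent.W912.EC

theorem tst_inj {b n : ℕ} {x y : List Bool} (hx : x.length = n) (hy : y.length = n)
    (h : tst b x = tst b y) : x = y := by
  unfold tst at h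
  rw [hx, hy] at h
  exact (List.cons.inj (List.append_cancel_left h)).2

theorem tst_length (b : ℕ) (x : List Bool) :
    (tst b x).length = 2 ^ (x.length / b) + (x.length + 1) := by
  unfold tst
  rw [List.length_append, List.length_replicate, List.length_cons]

/-- the number of the test string of an input -/
def pos (b : ℕ) {n : ℕ} (x : Fin n → Bool) : ℕ := idx (tst b (List.ofFn x))

theorem pos_inj {b n : ℕ} {x y : Fin n → Bool} (h : pos b x = pos b y) : x = y := by
  unfold pos at h
  have h1 : tst b (List.ofFn x) = tst b (List.ofFn y) := by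
    rw [← str_idx (tst b (List.ofFn x)), h, str_idx]
  have h2 := tst_inj (n := n) (List.length_ofFn) (List.length_ofFn) h1
  exact List.ofFn_injective h2

open Classical in
/-- the assignments for which the circuit is right -/
noncomputable def SC (b n N : ℕ) (C : Circuit) : Finset (Fin N → Bool) :=
  Finset.univ.filter fun a => ∀ x : List Bool, x.length = n →
    (orc N a (tst b x) = true ↔ C.eval (orc N a) x = true)

open Classical in
/-- overwrite the bits at the test strings -/
noncomputable def ovr (b n N : ℕ) (p : (Fin N → Bool) × ((Fin n → Bool) → Bool)) :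
    Fin N → Bool :=
  fun i => if h : ∃ x : Fin n → Bool, pos b x = i.val then p.2 h.choose else p.1 i

theorem ovr_pos {b n N : ℕ} (p : (Fin N → Bool) × ((Fin n → Bool) → Bool)) (x : Fin n → Bool)
    (i : Fin N) (hi : pos b x = i.val) : ovr b n N p i = p.2 x := by
  have h : ∃ x : Fin n → Bool, pos b x = i.val := ⟨x, hi⟩
  unfold ovr
  rw [dif_pos h]
  have h1 : h.choose = x := pos_inj (b := b) (h.choose_spec.trans hi.symm)
  rw [h1]

theorem ovr_not {b n N : ℕ} (p : (Fin N → Bool) × ((Fin n → Bool) → Bool))
    (i : Fin N) (hi : ¬ ∃ x : Fin n → Bool, pos b x = i.val) : ovr b n N p i = p.1 i := by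
  unfold ovr
  rw [dif_neg hi]

theorem card_SC {b n k N : ℕ} (hk : ∀ x : List Bool, x.length = n → k ≤ (tst b x).length)
    (hN : ∀ x : List Bool, x.length = n → idx (tst b x) < N) {C : Circuit} (hC : C.size ≤ k) :
    (SC b n N C).card * 2 ^ 2 ^ n ≤ 2 ^ N := by
  classical
  have h1 : ((SC b n N C) ×ˢ (Finset.univ : Finset ((Fin n → Bool) → Bool))).card ≤
      (Finset.univ : Finset (Fin N → Bool)).card := by
    apply Finset.card_le_card_of_injOn (ovr b n N)
    · intro p _
      exact Finset.mem_coe.2 (Finset.mem_univ _)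
    · rintro ⟨a, v⟩ ha ⟨a', v'⟩ ha' heq
      rw [Finset.mem_coe, Finset.mem_product] at ha ha'
      have ha1 : ∀ x : List Bool, x.length = n →
          (orc N a (tst b x) = true ↔ C.eval (orc N a) x = true) :=
        (Finset.mem_filter.1 ha.1).2
      have ha2 : ∀ x : List Bool, x.length = n →
          (orc N a' (tst b x) = true ↔ C.eval (orc N a') x = true) :=
        (Finset.mem_filter.1 ha'.1).2
      have hv : v = v' := by
        funext x
        have hx : pos b x < N := hN _ List.length_ofFn
        have h2 := congrFun heq ⟨pos b x, hx⟩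
        rw [ovr_pos (a, v) x ⟨pos b x, hx⟩ rfl, ovr_pos (a', v') x ⟨pos b x, hx⟩ rfl] at h2
        exact h2
      have hoff : ∀ i : Fin N, (¬ ∃ x : Fin n → Bool, pos b x = i.val) → a i = a' i := by
        intro i hi
        have h2 := congrFun heq i
        rw [ovr_not (a, v) i hi, ovr_not (a', v') i hi] at h2
        exact h2
      have horc : ∀ y : List Bool, y.length < C.size → orc N a y = orc N a' y := by
        intro y hy
        unfold orc
        by_cases hyN : idx y < N
        · rw [dif_pos hyN, dif_pos hyN]
          apply hoff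
          rintro ⟨x, hx⟩
          have h3 : tst b (List.ofFn x) = y := by
            rw [← str_idx (tst b (List.ofFn x)), ← str_idx y]
            exact congrArg str hx
          have h4 := hk (List.ofFn x) List.length_ofFn
          rw [h3] at h4
          omega
        · rw [dif_neg hyN, dif_neg hyN]
      have haa : a = a' := by
        funext i
        by_cases hi : ∃ x : Fin n → Bool, pos b x = i.val
        · obtain ⟨x, hx⟩ := hi
          have hx' : idx (tst b (List.ofFn x)) < N := hN _ List.length_ofFn
          have e1 : ∀ c : Fin N → Bool, orc N c (tst b (List.ofFn x)) = c i := by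
            intro c
            unfold orc
            rw [dif_pos hx']
            congr 1
            exact Fin.ext hx
          have h5 := ha1 (List.ofFn x) List.length_ofFn
          have h6 := ha2 (List.ofFn x) List.length_ofFn
          rw [e1] at h5 h6
          rw [eval_local C (orc N a) (orc N a') horc] at h5
          rw [Bool.eq_iff_iff, h5, h6]
        · exact hoff i hi
      rw [hv, haa]
  rw [Finset.card_product, Finset.card_univ, Finset.card_univ, Fintype.card_fun,
    Fintype.card_fun, Fintype.card_fun, Fintype.card_fin, Fintype.card_bool,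
    Fintype.card_fin] at h1
  exact h1

open Classical in
theorem card_Ev {b n k N : ℕ} (hk : ∀ x : List Bool, x.length = n → k ≤ (tst b x).length)
    (hN : ∀ x : List Bool, x.length = n → idx (tst b x) < N) :
    ((Finset.univ : Finset (Fin N → Bool)).filter (fun a => EvC b n k (orc N a))).card *
      2 ^ 2 ^ n ≤ nC n k * 2 ^ N := by
  obtain ⟨F, hF, hFC⟩ := exists_circuits n k
  have hsub : ((Finset.univ : Finset (Fin N → Bool)).filter (fun a => EvC b n k (orc N a))) ⊆
      (F.filter fun C => C.size ≤ k).biUnion (fun C => SC b n N C) := by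
    intro a ha
    obtain ⟨C, hC, hCa⟩ := (Finset.mem_filter.1 ha).2
    obtain ⟨C', hC', hs, he⟩ := hFC C hC
    rw [Finset.mem_biUnion]
    refine ⟨C', Finset.mem_filter.2 ⟨hC', hs⟩, ?_⟩
    refine Finset.mem_filter.2 ⟨Finset.mem_univ _, fun x hx => ?_⟩
    rw [he (orc N a) x hx]
    exact hCa x hx
  calc ((Finset.univ : Finset (Fin N → Bool)).filter (fun a => EvC b n k (orc N a))).card *
      2 ^ 2 ^ n ≤ (∑ C ∈ F.filter fun C => C.size ≤ k, (SC b n N C).card) * 2 ^ 2 ^ n :=
        Nat.mul_le_mul_right _ ((Finset.card_le_card hsub).trans Finset.card_biUnion_le)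
    _ = ∑ C ∈ F.filter fun C => C.size ≤ k, (SC b n N C).card * 2 ^ 2 ^ n := by
        rw [Finset.sum_mul]
    _ ≤ ∑ C ∈ F.filter fun C => C.size ≤ k, 2 ^ N :=
        Finset.sum_le_sum fun C hC => card_SC hk hN (Finset.mem_filter.1 hC).2
    _ = (F.filter fun C => C.size ≤ k).card * 2 ^ N := by
        rw [Finset.sum_const, smul_eq_mul]
    _ ≤ nC n k * 2 ^ N :=
        Nat.mul_le_mul_right _ ((Finset.card_le_card (Finset.filter_subset _ _)).trans hF)

theorem main : Pool.Agent.W912.EC.S_CNT := by
  classical
  intro b n k N s hk hN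
  set E := (Finset.univ : Finset (Fin N → Bool)).filter (fun a => EvC b n k (orc N a)) with hE
  set P := (Finset.univ : Finset (Fin N)).powerset.filter (fun D => D.card ≤ s) with hP
  have hsub : ((Finset.univ : Finset (Fin N → Bool)).filter (fun a =>
      ∃ a' : Fin N → Bool, (df a a').card ≤ s ∧ EvC b n k (orc N a'))) ⊆
      (P ×ˢ E).image (fun p => ch p.2 p.1) := by
    intro a ha
    obtain ⟨a', hd, he⟩ := (Finset.mem_filter.1 ha).2
    rw [Finset.mem_image]
    refine ⟨(df a a', a'), ?_, ch_df a a'⟩
    rw [Finset.mem_product]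
    refine ⟨Finset.mem_filter.2 ⟨Finset.mem_powerset.2 (Finset.subset_univ _), hd⟩,
      Finset.mem_filter.2 ⟨Finset.mem_univ _, he⟩⟩
  have h1 : ((Finset.univ : Finset (Fin N → Bool)).filter (fun a =>
      ∃ a' : Fin N → Bool, (df a a').card ≤ s ∧ EvC b n k (orc N a'))).card ≤
      (N + 1) ^ s * E.card := by
    refine (Finset.card_le_card hsub).trans (Finset.card_image_le.trans ?_)
    rw [Finset.card_product]
    refine Nat.mul_le_mul_right _ ?_
    have h2 := card_small' (Finset.univ : Finset (Fin N)) s
    rw [Finset.card_univ, Fintype.card_fin] at h2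
    exact h2
  have h3 := card_Ev (b := b) (n := n) (k := k) (N := N) hk hN
  calc ((Finset.univ : Finset (Fin N → Bool)).filter (fun a =>
      ∃ a' : Fin N → Bool, (df a a').card ≤ s ∧ EvC b n k (orc N a'))).card * 2 ^ 2 ^ n
      ≤ ((N + 1) ^ s * E.card) * 2 ^ 2 ^ n := Nat.mul_le_mul_right _ h1
    _ = (N + 1) ^ s * (E.card * 2 ^ 2 ^ n) := by rw [Nat.mul_assoc]
    _ ≤ (N + 1) ^ s * (nC n k * 2 ^ N) := Nat.mul_le_mul_left _ h3
    _ = (N + 1) ^ s * nC n k * 2 ^ N := by rw [Nat.mul_assoc]

end Pool.Agent.W812.EC
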